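import Mathlib

/-!
Project RP (helper266), MP_6bdd40_al: for every regular finite p-group P (regular in the
sense of P. Hall), every irreducible complex representation rho of P and every x in P with
trace (rho x) nonzero, o(x) * (dim rho)^2 divides |P|.

Statements of the lemma jobs.  Every S_NAME has a complete proof in its docstring; a job
proves `theorem name : S_NAME` (some jobs take other S_ as hypotheses).
-/

namespace Pool.Agent.Q266.RP

open Module

/-- `P` is a regular `p`-group in the sense of P. Hall: for all `a, b` the quotient of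
`a ^ p * b ^ p` by `(a * b) ^ p` is a product of `p`-th powers of elements of the
commutator subgroup of `⟨a, b⟩` (and inverses of such). -/
def Regular (p : ℕ) (P : Type) [Group P] : Prop :=
  ∀ a b : P, ∃ s ∈ Subgroup.closure {u : P | ∃ c ∈ ⁅Subgroup.closure ({a, b} : Set P),
      Subgroup.closure ({a, b} : Set P)⁆, u = c ^ p}, a ^ p * b ^ p = (a * b) ^ p * s

/-- `ρ` is irreducible: `V` is nonzero and has no invariant subspaces but `⊥` and `⊤`. -/
def Irr {G V : Type} [Group G] [AddCommGroup V] [Module ℂ V] (ρ : Representation ℂ G V) :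
    Prop :=
  Nontrivial V ∧ ∀ W : Submodule ℂ V, (∀ g : G, ∀ w ∈ W, ρ g w ∈ W) → W = ⊥ ∨ W = ⊤

/-- Power property (P. Hall's theorem for regular groups), exponent `p`. -/
def PowOne (p : ℕ) (G : Type) [Group G] : Prop :=
  ∀ a b : G, a ^ p = b ^ p ↔ (a⁻¹ * b) ^ p = 1

/-- Power property for all exponents `p ^ k`. -/
def PowAll (p : ℕ) (G : Type) [Group G] : Prop :=
  ∀ (k : ℕ) (a b : G), a ^ (p ^ k) = b ^ (p ^ k) ↔ (a⁻¹ * b) ^ (p ^ k) = 1

/-- `e` has order dividing `p`, is not central, `z` is central of order `p`, and every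
conjugate of `e` is `e * z ^ n` for some `n`. -/
def Pair (p : ℕ) {G : Type} [Group G] (e z : G) : Prop :=
  e ^ p = 1 ∧ e ∉ Subgroup.center G ∧ z ∈ Subgroup.center G ∧ orderOf z = p ∧
    ∀ g : G, ∃ n : ℕ, g * e * g⁻¹ = e * z ^ n

/-! ### group theory -/

/-- JOB SUB. Subgroups and quotients of regular groups are regular.
PROOF. Subgroup H: for a b : H apply regularity to (a : G), (b : G).  closure {a, b} in G is
the image under H.subtype of closure {a, b} in H (Subgroup.map_closure / MonoidHom.map_closure), the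
commutator maps to the commutator (Subgroup.map_commutator), p-th powers to p-th powers; so
s is in the image of the closure in H.  Quotient: the same with the surjective map mk (images
of closures are closures), lift a, b. -/
def S_SUB : Prop :=
  (∀ (p : ℕ) (G : Type) [Group G] (H : Subgroup G), Regular p G → Regular p H) ∧
  (∀ (p : ℕ) (G : Type) [Group G] (N : Subgroup G) [N.Normal], Regular p G →
      Regular p (G ⧸ N))

/-- JOB PROP. If G is a finite p-group generated by a, b (closure {a, b} = ⊤) and not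
commutative, then closure {a} ⊔ commutator G is a proper subgroup.
PROOF. Else: G is nilpotent (IsPGroup.isNilpotent), so every maximal subgroup is normal, of
prime index, and contains the commutator subgroup; if closure {a} were proper it would be
contained in a maximal subgroup M, which contains closure {a} ⊔ commutator G = ⊤,
contradiction.  So closure {a} = ⊤, G is cyclic, hence commutative, contradiction.
(Mathlib: Subgroup.NormalizerCondition.normal_of_coatom, Group.normalizerCondition_of_isNilpotent,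
frattini; G/M is a simple p-group so has order p and is commutative; or: G/M has no
proper nontrivial subgroups hence is cyclic.) -/
def S_PROP : Prop :=
  ∀ (p : ℕ) [Fact p.Prime] (G : Type) [Group G] [Finite G], IsPGroup p G →
    ∀ a b : G, Subgroup.closure {a, b} = ⊤ → (¬ ∀ x y : G, x * y = y * x) →
      Subgroup.closure {a} ⊔ commutator G ≠ ⊤

/-- JOB NCL. If closure {a, b} = ⊤ and K is a subgroup of G containing every conjugate
g * (a⁻¹ * b⁻¹ * a * b) * g⁻¹, then commutator G ≤ K.
PROOF. Let N be the normal closure of {a⁻¹b⁻¹ab}; it is generated by the conjugates so N ≤ K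
(Subgroup.normalClosure = closure (Group.conjugatesOfSet)).  In G/N the images of a and b
commute and generate, so G/N is commutative, so commutator G ≤ N
(e.g. Subgroup.Normal.commutator_le... / Abelianization / show ⁅x,y⁆ in N for all x y). -/
def S_NCL : Prop :=
  ∀ (G : Type) [Group G] (a b : G), Subgroup.closure {a, b} = ⊤ → ∀ K : Subgroup G,
    (∀ g : G, g * (a⁻¹ * b⁻¹ * a * b) * g⁻¹ ∈ K) → commutator G ≤ K

/-- JOB FONE (uses S_SUB, S_PROP, S_NCL as hypotheses). A finite regular p-group has PowOne.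
PROOF. Strong induction on Nat.card G.  Given a b : G. If closure {a, b} ≠ ⊤ use the
induction hypothesis for the subgroup closure {a, b} (S_SUB) and a, b in it.  So closure
{a, b} = ⊤.  If G is commutative: (a⁻¹b)^p = a^(-p) b^p, done.  Otherwise G is not
commutative.
CLAIM: if (a⁻¹ b⁻¹ a b)^p = 1 then (a⁻¹b)^p = a^(-p) b^p, so the equivalence.
 Proof of CLAIM: commutator G is a proper subgroup (S_PROP), so by induction PowOne holds in it;
 therefore K = {g in commutator G : g^p = 1} is closed under products: for u, v in K,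
 (u⁻¹)^p = 1 = v^p gives (u v)^p = ((u⁻¹)⁻¹ v)^p = 1; so K is a subgroup.  It contains all
 conjugates of a⁻¹b⁻¹ab, so commutator G ≤ K (S_NCL): c^p = 1 for every c in commutator G.
 Regularity for a⁻¹, b: a^(-p) b^p = (a⁻¹b)^p s, s in the closure of p-th powers of elements
 of commutator G, so s = 1.
(->) Let a^p = b^p.  Then (b⁻¹ a b)^p = b⁻¹ a^p b = b⁻¹ b^p b = b^p = a^p.  Both a and
 b⁻¹ a b = a (a⁻¹ b⁻¹ a b) lie in H = closure {a} ⊔ commutator G, proper by S_PROP;
 induction in H for the elements a, b⁻¹ab: (a⁻¹ b⁻¹ a b)^p = 1.  By CLAIM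
 (a⁻¹b)^p = a^(-p) b^p = 1.
(<-) Let c = a⁻¹ b, c^p = 1.  closure {c, a} = ⊤ as well (b = a c).  Put
 c' = a⁻¹ c a; c'^p = 1 = c^p.  c and c' = c (c⁻¹ a⁻¹ c a) are in
 H = closure {c} ⊔ commutator G, proper by S_PROP for c, a; by induction in H:
 (c⁻¹ a⁻¹ c a)^p = 1.  c⁻¹a⁻¹ca = b⁻¹ a a⁻¹ a⁻¹ b a = b⁻¹ a⁻¹ b a, and this is the
 inverse of a⁻¹ b⁻¹ a b.  So (a⁻¹b⁻¹ab)^p = 1 and by CLAIM 1 = (a⁻¹b)^p = a^(-p) b^p. -/
def S_FONE : Prop :=
  ∀ (p : ℕ) [Fact p.Prime] (G : Type) [Group G] [Finite G], IsPGroup p G → Regular p G →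
    PowOne p G

/-- JOB FALL (uses S_SUB, S_FONE as hypotheses). A finite regular p-group has PowAll.
PROOF. Induction on k, for all G at once (k = 0: a = b iff a⁻¹b = 1).  Step: Omega = {g : g^p = 1}
is a normal subgroup by PowOne (u, v in Omega: (u⁻¹)^p = 1 = v^p so (uv)^p = 1).  G/Omega is
a finite regular p-group.  a^(p^(k+1)) = b^(p^(k+1)) iff (a^(p^k))^p = (b^(p^k))^p iff (PowOne)
((a^(p^k))⁻¹ b^(p^k))^p = 1 iff (a^(p^k))⁻¹ b^(p^k) in Omega iff a^(p^k) = b^(p^k) in G/Omega iff
(induction hypothesis in G/Omega) (a⁻¹b)^(p^k) = 1 in G/Omega iff ((a⁻¹b)^(p^k))^p = 1. -/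
def S_FALL : Prop :=
  ∀ (p : ℕ) [Fact p.Prime] (G : Type) [Group G] [Finite G], IsPGroup p G → Regular p G →
    PowAll p G

/-- JOB COMM. x^(p^k) commutes with g iff x commutes with g^(p^k).
PROOF. x^q g = g x^q iff (x)^q = (g x g⁻¹)^q iff (PowAll) (x⁻¹ g x g⁻¹)^q = 1.
x g^q = g^q x iff g^q = (x g x⁻¹)^q iff (g⁻¹ x g x⁻¹)^q = 1.  And x⁻¹ g x g⁻¹ is conjugate
to the inverse of g⁻¹ x g x⁻¹: x g⁻¹ x⁻¹ g = (g⁻¹ x) (x⁻¹ g x g⁻¹) (g⁻¹ x)⁻¹. -/
def S_COMM : Prop :=
  ∀ (p : ℕ) (G : Type) [Group G], PowAll p G → ∀ (k : ℕ) (x g : G),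
    x ^ (p ^ k) * g = g * x ^ (p ^ k) ↔ x * g ^ (p ^ k) = g ^ (p ^ k) * x

/-- JOB CYC. A finite p-group with PowAll and at most p elements with g^p = 1 is commutative.
PROOF. Let Omega_k = {g : g^(p^k) = 1}.  By PowAll, #Omega_(k+1) ≤ p * #Omega_k: the map
g -> g^(p^k) sends Omega_(k+1) to Omega_1, and two elements g, h have the same image iff
g⁻¹ h in Omega_k, so every fibre has at most #Omega_k elements (h -> g⁻¹ h is injective).
So #Omega_k ≤ p^k.  For n > 0, n = p^k * m with p not dividing m, g^n = 1 iff g^(p^k) = 1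
(orders are powers of p), so at most p^k ≤ n elements have g^n = 1, and G is cyclic
(isCyclic_of_card_pow_eq_one_le), so commutative. -/
def S_CYC : Prop :=
  ∀ (p : ℕ) [Fact p.Prime] (G : Type) [Group G] [Finite G], IsPGroup p G → PowAll p G →
    Nat.card {g : G // g ^ p = 1} ≤ p → ∀ a b : G, a * b = b * a

/-- JOB PAIR. A finite p-group with PowOne, with at most p central elements t with t^p = 1 and
more than p elements g with g^p = 1, has a Pair.
PROOF. G is nontrivial (more than p ≥ 2 elements), so the center is a nontrivial p-group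
(IsPGroup.center_nontrivial) and has an element z of order p; Z = zpowers z has p
elements and is exactly the set of central t with t^p = 1 (cardinalities).  Omega = {g : g^p = 1} is a
normal subgroup (PowOne) with more than p elements and contains Z.  In Q = G/Z the image M of
Omega is a nontrivial normal subgroup of a p-group, so it contains a nontrivial
element of the center of Q (conjugation action on M: IsPGroup.exists_fixed_point_of_prime_dvd_card_of_fixed_point, or
card_modEq_card_fixedPoints).  Lift it to e in Omega: e^p = 1, e not in Z, so e is not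
central (central with e^p = 1 would be in Z), and for each g, e⁻¹ g e g⁻¹ in Z = {z^n}. -/
def S_PAIR : Prop :=
  ∀ (p : ℕ) [Fact p.Prime] (G : Type) [Group G] [Finite G], IsPGroup p G → PowOne p G →
    Nat.card {t : G // t ∈ Subgroup.center G ∧ t ^ p = 1} ≤ p →
    p < Nat.card {g : G // g ^ p = 1} → ∃ e z : G, Pair p e z

/-- JOB CARDC. For a Pair, |G| = p |C(e)|.
PROOF. f : G -> G, f g = g e g⁻¹ e⁻¹ is a homomorphism into zpowers z: g e g⁻¹ = e z^n = z^n e, so
f g = z^n central, f (g h) = g (h e h⁻¹) g⁻¹ e⁻¹ = g f(h) e g⁻¹ e⁻¹ = f(h) f(g).  Kernel =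
centralizer {e}; range is a subgroup of zpowers z (p elements, p prime), not trivial as e is not
central, so it has p elements. |G| = |ker| |range|. -/
def S_CARDC : Prop :=
  ∀ (p : ℕ) [Fact p.Prime] (G : Type) [Group G] [Finite G] (e z : G), Pair p e z →
    Nat.card G = p * Nat.card (Subgroup.centralizer ({e} : Set G))

/-- JOB ORD. Orders in quotients.
PROOF. (1) with n = orderOf (mk x), x^n in N, so (x^n)^|N| = 1. (2) if x^n in N then
x^n in zpowers x ⊓ N = ⊥. -/
def S_ORD : Prop :=
  (∀ (G : Type) [Group G] [Finite G] (N : Subgroup G) [N.Normal] (x : G),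
    orderOf x ∣ orderOf (QuotientGroup.mk x : G ⧸ N) * Nat.card N) ∧
  (∀ (G : Type) [Group G] [Finite G] (N : Subgroup G) [N.Normal] (x : G),
    Subgroup.zpowers x ⊓ N = ⊥ → orderOf (QuotientGroup.mk x : G ⧸ N) = orderOf x)

/-- JOB XU (uses S_COMM as hypothesis). Let e, z be a Pair, PowAll for G and for G/zpowers z,
u = e z^n, and zpowers x ⊓ zpowers u ≠ ⊥.  Then some h and central t ≠ 1 have
h x h⁻¹ = x t.
PROOF. u^p = e^p z^(np) = 1 and u is not central, so u has order p and
zpowers u has p elements; hence u in zpowers x.  x has order p^m with m ≥ 1 and the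
subgroup of elements y of zpowers x with y^p = 1 is generated by y = x^(p^(m-1)), so
u = y^j for some j (u = x^i, x^(i p) = 1, so p^(m-1) divides i).
y is not central (u is not).  Choose g with y g ≠ g y.  y is a power of u too (zpowers y =
zpowers u, both of order p; or: y^p = 1, y = u^l), and g u g⁻¹ = u z^r, so g y g⁻¹ = y z^(rl), hence the images of
y and g commute in G/zpowers z.  By S_COMM in G with k = m-1: x does not commute with
h = g^(p^(m-1)); by S_COMM in G/zpowers z the images of x and h commute.  So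
h x h⁻¹ = x t with t in zpowers z, so t central, and t ≠ 1. -/
def S_XU : Prop :=
  ∀ (p : ℕ) [Fact p.Prime] (G : Type) [Group G] [Finite G], IsPGroup p G → PowAll p G →
    ∀ (e z : G), Pair p e z → ∀ [(Subgroup.zpowers z).Normal],
    PowAll p (G ⧸ Subgroup.zpowers z) → ∀ (n : ℕ) (x : G),
    Subgroup.zpowers x ⊓ Subgroup.zpowers (e * z ^ n) ≠ ⊥ →
    ∃ h t : G, t ∈ Subgroup.center G ∧ t ≠ 1 ∧ h * x * h⁻¹ = x * t

/-! ### representations -/

/-- JOB SCHUR. Central elements act by scalars; they are nontrivial for injective ρ; at most p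
central elements have t^p = 1 if ρ is injective; commutative groups have dimension 1.
PROOF. (1) ρ t has an eigenvalue c (Module.End.exists_eigenvalue, needs V nontrivial); the
eigenspace is invariant (t central) and nonzero, so it is ⊤.  (2) t -> c is an injective map to
the roots of X^p - 1 (Polynomial.card_nthRoots or card_roots').  (3) all elements are
central so every subspace is invariant; a line spanned by v ≠ 0 is ⊤. -/
def S_SCHUR : Prop :=
  (∀ (G V : Type) [Group G] [AddCommGroup V] [Module ℂ V] [FiniteDimensional ℂ V]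
    (ρ : Representation ℂ G V), Irr ρ → ∀ t ∈ Subgroup.center G, ∃ c : ℂ, ∀ v, ρ t v = c • v) ∧
  (∀ (p : ℕ) [Fact p.Prime] (G V : Type) [Group G] [Finite G] [AddCommGroup V] [Module ℂ V]
    [FiniteDimensional ℂ V] (ρ : Representation ℂ G V), Irr ρ → (∀ g, ρ g = 1 → g = 1) →
    Nat.card {t : G // t ∈ Subgroup.center G ∧ t ^ p = 1} ≤ p) ∧
  (∀ (G V : Type) [Group G] [AddCommGroup V] [Module ℂ V] [FiniteDimensional ℂ V]
    (ρ : Representation ℂ G V), Irr ρ → (∀ a b : G, a * b = b * a) → finrank ℂ V = 1)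

/-- JOB TRZ. If h x h⁻¹ = x t with ρ t a scalar c ≠ 1 then trace (ρ x) = 0.
PROOF. trace ρ(h x h⁻¹) = trace ρ(x) (trace_mul_comm), and ρ(x t) = c ρ(x), so
trace ρ(x) = c trace ρ(x). -/
def S_TRZ : Prop :=
  ∀ (G V : Type) [Group G] [AddCommGroup V] [Module ℂ V] [FiniteDimensional ℂ V]
    (ρ : Representation ℂ G V) (x h t : G) (c : ℂ), (∀ v, ρ t v = c • v) → c ≠ 1 →
    h * x * h⁻¹ = x * t → LinearMap.trace ℂ V (ρ x) = 0

/-- JOB DESC. Restriction to an invariant subspace, and passage to a quotient.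
PROOF. (1) σ c = (ρ c).restrict; irreducible: for U : Submodule ℂ W invariant apply the
hypothesis to U.map W.subtype.  (2) σ = QuotientGroup.lift N ρ. -/
def S_DESC : Prop :=
  (∀ (G V : Type) [Group G] [AddCommGroup V] [Module ℂ V] (ρ : Representation ℂ G V)
    (C : Subgroup G) (W : Submodule ℂ V) (hW : ∀ c ∈ C, ∀ w ∈ W, ρ c w ∈ W), W ≠ ⊥ →
    (∀ U ≤ W, (∀ c ∈ C, ∀ w ∈ U, ρ c w ∈ U) → U = ⊥ ∨ U = W) →
    ∃ σ : Representation ℂ C W, Irr σ ∧
      ∀ c : C, σ c = (ρ (c : G)).restrict (hW (c : G) c.2)) ∧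
  (∀ (G V : Type) [Group G] [AddCommGroup V] [Module ℂ V] (ρ : Representation ℂ G V)
    (N : Subgroup G) [N.Normal], Irr ρ → (∀ n ∈ N, ρ n = 1) →
    ∃ σ : Representation ℂ (G ⧸ N) V, Irr σ ∧ ∀ g : G, σ (QuotientGroup.mk g) = ρ g)

/-- JOB PROJ. Eigenprojections of an operator T with T^p = 1, for a primitive p-th root of
unity ω: projections π j (j in ZMod p) commuting with everything that commutes with T, with
sum 1, T π_j = ω^j π_j, and π_j v = 0 or v on eigenvectors.
PROOF. π j = (1/p) sum_(i < p) ω^(-j i) T^i; orthogonality of the p-th roots of unity. -/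
def S_PROJ : Prop :=
  ∀ (p : ℕ) [Fact p.Prime] (V : Type) [AddCommGroup V] [Module ℂ V] (T : End ℂ V) (ω : ℂ),
    IsPrimitiveRoot ω p → T ^ p = 1 →
    ∃ π : Fin p → End ℂ V, (∑ j, π j = 1) ∧ (∀ j, ∀ v, T (π j v) = ω ^ (j : ℕ) • π j v) ∧
      (∀ j k, ∀ v, T v = ω ^ (k : ℕ) • v → π j v = if j = k then v else 0) ∧
      (∀ j, ∀ A : End ℂ V, A * T = T * A → A * π j = π j * A)

/-- JOB EIG (uses S_PROJ as hypothesis). e, z a Pair, ρ z = ω with ω ≠ 1 (then ω is a primitive p-th
root of unity, as z^p = 1). W_j = eigenspace of ρ e for ω^j, j in Fin p.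
CLAIMS: (a) DirectSum.IsInternal; (b) every W_j is invariant under C = centralizer {e};
(c) all W_j have the same dimension, so finrank V = p * finrank W_j; (d) W_j ≠ ⊥ and is
irreducible for C; (e) for some n, ρ (e z^n) is the identity on W_j.
PROOF. (a) independence: Module.End.eigenspaces_iSupIndep (distinct ω^j) or π; sum: v = sum π_j v.
(b) clear. (c) as e is not central there is g with g e g⁻¹ = e z^n, z^n ≠ 1, n prime to
p; g^i e g^(-i) = e z^(n i); for all j, k there is h = g^i with ρ h mapping W_j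
into W_k (T (ρ h v) = ρ(h) ρ(h⁻¹ e h) v and h⁻¹ e h = e z^(-n i)); ρ h is injective so
dim W_j ≤ dim W_k for all j, k. Finally finrank V = sum finrank W_j.
(d) V ≠ 0 so some and hence all W_j ≠ 0.  Let U ≤ W_j be C-invariant, U' = ⨆ g, map (ρ g) U.
U' is G-invariant, so ⊥ or ⊤.  If ⊥ then U = ⊥.  If ⊤: π_j maps map (ρ g) U to
0 if g not in C (then ρ g U is in another eigenspace W_k) and into U if g in C; so
π_j V ≤ U; but π_j is the identity on W_j, so W_j ≤ U.
(e) ρ(e z^n) = ω^(j+n) on W_j; n = p - j. -/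
def S_EIG : Prop :=
  ∀ (p : ℕ) [Fact p.Prime] (G V : Type) [Group G] [Finite G] [AddCommGroup V] [Module ℂ V]
    [FiniteDimensional ℂ V] (ρ : Representation ℂ G V), Irr ρ → ∀ (e z : G), Pair p e z →
    ∀ ω : ℂ, (∀ v, ρ z v = ω • v) → ω ≠ 1 →
    ∃ W : Fin p → Submodule ℂ V, DirectSum.IsInternal W ∧
      (∀ j, ∀ c ∈ Subgroup.centralizer ({e} : Set G), ∀ w ∈ W j, ρ c w ∈ W j) ∧
      (∀ j, finrank ℂ V = p * finrank ℂ (W j)) ∧ (∀ j, W j ≠ ⊥) ∧
      (∀ j, ∀ U ≤ W j, (∀ c ∈ Subgroup.centralizer ({e} : Set G), ∀ w ∈ U, ρ c w ∈ U) →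
        U = ⊥ ∨ U = W j) ∧
      (∀ j, ∃ n : ℕ, ∀ w ∈ W j, ρ (e * z ^ n) w = w)

/-- JOB STEP (uses S_DESC, S_EIG, S_TRZ, S_CARDC as hypotheses). The descent step.
PROOF. x in C = centralizer {e}: otherwise x e x⁻¹ = e z^n with z^n ≠ 1, so
e⁻¹ x e = e⁻¹ (x e x⁻¹) x = z^n x = x z^n, and S_TRZ (h = e⁻¹, t = z^n, c = ω^n ≠ 1 because ω is a
primitive p-th root of unity and p does not divide n) gives trace = 0.
trace (ρ x) = sum_j trace of the restriction to W_j (LinearMap.trace_eq_sum_trace_restrict),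
so it is nonzero for some j.  n from EIG (last line) for j, u = e z^n; u is in C and central in C
(z central, elements of C commute with e), so N = zpowers ⟨u, _⟩ ≤ C is normal in C, with p
elements (u^p = 1, u ≠ 1 since u is not central in G).  Restrict ρ to C and W_j (S_DESC (1)), it is
trivial on N, then S_DESC (2).  |G| = p |C| (S_CARDC) = p^2 |C/N|; finrank V = p finrank W_j. -/
def S_STEP : Prop :=
  ∀ (p : ℕ) [Fact p.Prime] (G V : Type) [Group G] [Finite G] [AddCommGroup V] [Module ℂ V]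
    [FiniteDimensional ℂ V] (ρ : Representation ℂ G V), Irr ρ → ∀ (e z : G), Pair p e z →
    ∀ ω : ℂ, (∀ v, ρ z v = ω • v) → ω ≠ 1 →
    ∀ x : G, LinearMap.trace ℂ V (ρ x) ≠ 0 →
    ∃ (C : Subgroup G) (hx : x ∈ C) (n : ℕ) (hu : e * z ^ n ∈ C)
      (hN : (Subgroup.zpowers (⟨e * z ^ n, hu⟩ : C)).Normal)
      (W : Submodule ℂ V) (σ : Representation ℂ (C ⧸ Subgroup.zpowers (⟨e * z ^ n, hu⟩ : C)) W),
      Irr σ ∧ finrank ℂ V = p * finrank ℂ W ∧
      LinearMap.trace ℂ W (σ (QuotientGroup.mk ⟨x, hx⟩)) ≠ 0 ∧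
      Nat.card G = p ^ 2 * Nat.card (C ⧸ Subgroup.zpowers (⟨e * z ^ n, hu⟩ : C))

/-- JOB MAIN (uses S_SUB, S_FONE, S_FALL, S_COMM, S_CYC, S_PAIR, S_ORD, S_XU, S_SCHUR, S_TRZ,
S_DESC, S_STEP as hypotheses).
PROOF. Strong induction on Nat.card P.
(a) If some g ≠ 1 has ρ g = 1: N = ker ρ ≠ ⊥, σ on P/N (S_DESC (2)), |P| = |P/N| |N|, induction:
o(xN) d² ∣ |P/N|; o(x) ∣ o(xN) |N| (S_ORD (1)), so o(x) d² ∣ |P|.
(b) ρ injective (ρ g = 1 → g = 1).  S_SCHUR (2): at most p central t with t^p = 1.  If at most p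
elements g have g^p = 1: P is commutative (S_CYC, S_FALL), d = 1 (S_SCHUR (3)), o(x) ∣ |P|.
Otherwise e, z from S_PAIR; ρ z = ω (S_SCHUR (1)), ω ≠ 1 (injective, z ≠ 1). S_STEP gives C, n,
u, W, σ.  C/zpowers u is a finite regular p-group (S_SUB twice), smaller than P. Induction:
o(x̄) (dim W)² ∣ |C/⟨u⟩|, so o(x̄) d² = o(x̄) p² (dim W)² ∣ |P|.
If zpowers x ⊓ zpowers u = ⊥ in P (then the same in C) then o(x̄) = o(x) (S_ORD (2)), done.
Otherwise S_XU (PowAll for P and P/zpowers z by S_FALL, S_SUB; zpowers z is normal as z is central) gives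
h x h⁻¹ = x t, t central, t ≠ 1; ρ t = c with c ≠ 1; S_TRZ: trace = 0, contradiction. -/
def S_MAIN : Prop :=
  ∀ (p : ℕ) [Fact p.Prime] (P V : Type) [Group P] [Finite P] [AddCommGroup V] [Module ℂ V]
    [FiniteDimensional ℂ V] (ρ : Representation ℂ P V), IsPGroup p P → Regular p P → Irr ρ →
    ∀ x : P, LinearMap.trace ℂ V (ρ x) ≠ 0 → orderOf x * (finrank ℂ V) ^ 2 ∣ Nat.card P

end Pool.Agent.Q266.RP
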