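import Pool.Agent.Q266.RP.Stm

/-!
Project RP (helper266), MP_6bdd40_al, second part: groups of nilpotency class < p are regular
(P. Hall), by polynomial sequences (Leibman's theorem for sequences on ℕ, differences with step 1).
Every S_NAME has a complete proof in its docstring.
-/

namespace Pool.Agent.Q266.RP

open scoped commutatorElement

/-- `Fil G 0 = Fil G 1 = ⊤`, `Fil G (k + 1) = lowerCentralSeries ⊤ k`. -/
def Fil (G : Type) [Group G] (k : ℕ) : Subgroup G :=
  (⊤ : Subgroup G).lowerCentralSeries (k - 1)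

/-- Polynomial sequences of level `k`, tested on `r` differences. -/
def PS {G : Type} [Group G] : ℕ → ℕ → (ℕ → G) → Prop
  | 0, k, g => ∀ n, g n ∈ Fil G k
  | r + 1, k, g => (∀ n, g n ∈ Fil G k) ∧ PS r (k + 1) (fun n => g (n + 1) * (g n)⁻¹)

/-- The subgroup generated by the `p`-th powers of the elements of the commutator subgroup. -/
def Mho (p : ℕ) (G : Type) [Group G] : Subgroup G :=
  Subgroup.closure {u : G | ∃ c ∈ commutator G, u = c ^ p}

/-- JOB FILC. Commutators of the filtration.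
PROOF. Normality and monotonicity are in Mathlib (lower central series; truncated k - 1).
Commutators: for i = 0 or j = 0 by normality (commutator_le_left / right); otherwise
[L_i, L_j] ≤ L_(i+j+1) for the lower central series: for groups in Type this is
Pool.Agent.Q257.NP lcs_comm (Pool/Agent/Q257/NP/A1.lean, copy the proof, do not import that file: its
imports are heavy), or by induction on j with
Subgroup.commutator_commutator_eq_bot_of_rotate in the quotient. -/
def S_FILC : Prop :=
  ∀ (G : Type) [Group G], (∀ i j, ⁅Fil G i, Fil G j⁆ ≤ Fil G (i + j)) ∧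
    (∀ k, (Fil G k).Normal) ∧ (∀ k, Fil G (k + 1) ≤ Fil G k)

/-- JOB LEI (uses S_FILC as hypothesis). Leibman: polynomial sequences form a group.
PROOF. Monotonicity by induction on r: PS (r+1) k h → PS r k h and PS r (k+1) h → PS r k h.
Main induction on r, for ALL k i j:
 (a) PS r k g → PS r k h → PS r k (g h); (b) PS r k g → PS r k g⁻¹;
 (c) PS r i g → PS r j h → PS r (i+j) ⁅g, h⁆ (pointwise commutators, ⁅u,v⁆ = u v u⁻¹ v⁻¹).
r = 0 is the pointwise statement (S_FILC).  Step r → r+1, with x = ∂g, y = ∂h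
(∂g n = g (n+1) (g n)⁻¹):
 (a) ∂(g h) = x ⁅g, y⁆ y with x, y of level k+1, g of level k (monotonicity in r), so ⁅g, y⁆ has
 level 2k+1 ≥ k+1 by (c) for r; use (a) for r.
 (b) ∂(g⁻¹) = g⁻¹ x⁻¹ g = ⁅g⁻¹, x⁻¹⁆ x⁻¹.
 (c) with c = ⁅g, h⁆, g(n+1) = x g, h(n+1) = y h and, where ^u v = u v u⁻¹,
 ⁅x g, y h⁆ = ^x(⁅g, y⁆ · ^y⁅g, h⁆) · ⁅x, y⁆ · ^y⁅x, h⁆, so
 ∂c = ^x⁅g, y⁆ · (^{xy}c · c⁻¹) · ^c(⁅x, y⁆ · ^y⁅x, h⁆), and ^{xy}c c⁻¹ = ⁅xy, c⁆, ^u v = ⁅u, v⁆ v;
 all factors are of level i+j+1 by (a), (c) for r (x y has level 1, c has level i+j, every map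
 involved has level 0, so conjugation does not lower the level).
(The same proof for Pool.Agent.Q185.NP.S_A1 is in Pool/Agent/Q257/NP/A1.lean; copy and adapt.) -/
def S_LEI : Prop :=
  ∀ (G : Type) [Group G],
    (∀ (r k : ℕ) (g h : ℕ → G), PS r k g → PS r k h → PS r k (fun n => g n * h n)) ∧
    (∀ (r k : ℕ) (g : ℕ → G), PS r k g → PS r k (fun n => (g n)⁻¹))

/-- JOB PSP (uses S_FILC as hypothesis). Powers, and the first nontrivial value.
PROOF. (1) induction on r and i: if i = 0 the sequence is constant c in Fil k, its difference is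
the constant 1.  If i = j + 1: c in Fil (k+i) ≤ Fil k; the difference is
c^(choose (n+1) (j+1)) (c^(choose n (j+1)))⁻¹ = c^(choose n j), with c in Fil ((k+1) + j).
(2) induction on k for all l: k = 0 clear.  k+1: the difference sequence h n = g (n+1) (g n)⁻¹
has PS k (l+1), is 1 for n < k, and h k = g (k+1) (as g k = 1), in Fil (l+1+k). -/
def S_PSP : Prop :=
  (∀ (G : Type) [Group G] (r k i : ℕ) (c : G), c ∈ Fil G (k + i) →
    PS r k (fun n => c ^ (n.choose i))) ∧
  (∀ (G : Type) [Group G] (k l : ℕ) (g : ℕ → G), PS k l g → (∀ n < k, g n = 1) →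
    g k ∈ Fil G (l + k))

/-- JOB CLREG (uses S_FILC, S_LEI, S_PSP as hypotheses). Class < p implies regular.
PROOF. CLAIM: let Fil G p = ⊥ (p prime).  If 2 ≤ k ≤ p, ∀ r, PS r 0 g and g n = 1 for n < k, then
g p in Mho p G.  By induction on p - k.  k = p: g p in Fil p = ⊥ (S_PSP (2), l = 0).
k < p: c = g k in Fil k ≤ Fil 2 = commutator G (S_PSP (2)); g' n = g n (c^(choose n k))⁻¹ is again
polynomial (S_LEI, S_PSP (1)), is 1 for n < k + 1, so g' p in Mho; and
c^(choose p k) is in Mho as p divides choose p k.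
Now let G have lowerCentralSeries (p-1) = ⊥, a b : G, H = closure {a, b}.  Fil H p = ⊥ (the lower
central series of H maps into the one of G).  In H put g n = ((ab)^n)⁻¹ a^n b^n, polynomial
(n ↦ c^n = c^(choose n 1), c in Fil 1 = ⊤), g 0 = g 1 = 1.  So g p in Mho p H, and
a^p b^p = (ab)^p g p.  Map to G: commutator H maps to ⁅closure {a,b}, closure {a,b}⁆
(Subgroup.map_commutator / map_subtype_commutator). -/
def S_CLREG : Prop :=
  ∀ (p : ℕ) [Fact p.Prime] (G : Type) [Group G],
    (⊤ : Subgroup G).lowerCentralSeries (p - 1) = ⊥ → Regular p G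

end Pool.Agent.Q266.RP
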