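import Pool.Agent.Q266.RP.Stm2

/-!
Project RP (helper266), MP_6bdd40_al, third part: arbitrary finite p-groups, p odd, when
chi(1) divides p^2, or x^(p^2) = 1, or some power of x acts as a scalar different from 1.
Every S_NAME has a complete proof in its docstring.  The induction pattern (pass to the
quotient by the kernel; commutative groups; Pair and the descent step) is written out in
Pool/Agent/Q231/RP/MAIN.lean: copy it.
-/

namespace Pool.Agent.Q266.RP

open Module

/-- at most `p` central elements `t` have `t ^ p = 1` -/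
def CenSmall (p : ℕ) (G : Type) [Group G] : Prop :=
  Nat.card {t : G // t ∈ Subgroup.center G ∧ t ^ p = 1} ≤ p

/-- JOB NPAIR. A normal subgroup of exponent p with more than p elements gives a Pair.
PROOF. As in Pool/Agent/Q91/RP/Pair.lean (S_PAIR) with Omega replaced by N: G is nontrivial so
its center has an element z of order p and Z = zpowers z is the set of all central t with
t^p = 1.  The image of N in G/Z is a normal subgroup, nontrivial since N has more than p
elements; it contains a nontrivial element of the center of G/Z; lift it to e in N: e^p = 1, e not in Z,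
so e is not central, and e⁻¹ g e g⁻¹ in Z for all g. -/
def S_NPAIR : Prop :=
  ∀ (p : ℕ) [Fact p.Prime] (G : Type) [Group G] [Finite G], IsPGroup p G → CenSmall p G →
    ∀ N : Subgroup G, N.Normal → (∀ n ∈ N, n ^ p = 1) → p < Nat.card N →
    ∃ e z : G, Pair p e z

/-- JOB OMX (uses S_NPAIR as hypothesis). p odd, D normal, z central of order p, and more than p
elements g of D have g^p = 1 and [g,h] in zpowers z for all h in D.  Then there is a Pair.
PROOF. X = {g in D : g h g⁻¹ h⁻¹ in zpowers z for all h in D} is a normal subgroup of G, with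
commutators in the central subgroup zpowers z of exponent p.  For a, b in X, t = b a b⁻¹ a⁻¹ is
central with t^p = 1 and (a b)^p = a^p b^p t^(p (p-1)/2) = a^p b^p as p is odd.  So {g in X : g^p = 1} is a
normal subgroup of G; apply S_NPAIR. -/
def S_OMX : Prop :=
  ∀ (p : ℕ) [Fact p.Prime], p ≠ 2 → ∀ (G : Type) [Group G] [Finite G], IsPGroup p G →
    CenSmall p G → ∀ z ∈ Subgroup.center G, orderOf z = p → ∀ D : Subgroup G, D.Normal →
    p < Nat.card {g : G // g ∈ D ∧ g ^ p = 1 ∧
      ∀ h ∈ D, g * h * g⁻¹ * h⁻¹ ∈ Subgroup.zpowers z} →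
    ∃ e z : G, Pair p e z

/-- JOB CYCP. A p-group, p odd, with a cyclic normal subgroup D of index p: all commutators lie in
zpowers z (z central of order p, CenSmall).
PROOF. If G is commutative clear.  D = zpowers a, orderOf a = p^N.  For h not in D: h a h⁻¹ = a^r,
h^p in D commutes with a, so r^p = 1 mod p^N; r = 1 mod p (r^p = r mod p, or N = 0), so
(lifting the exponent, p odd: Int.emultiplicity_pow_sub_pow or similar) r = 1 mod p^(N-1).  So
[h,a] = a^(r-1) is in the subgroup T of order p of D, T is normal in G of order p so central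
(p-group acting on T; or: h a^(p^(N-1)) h⁻¹ = a^(r p^(N-1)) = a^(p^(N-1))), so
T = zpowers z by CenSmall.  G/T is generated by the commuting images of a and h, so it is commutative. -/
def S_CYCP : Prop :=
  ∀ (p : ℕ) [Fact p.Prime], p ≠ 2 → ∀ (G : Type) [Group G] [Finite G], IsPGroup p G →
    CenSmall p G → ∀ z ∈ Subgroup.center G, orderOf z = p → ∀ D : Subgroup G, D.Normal →
    IsCyclic D → Nat.card G = p * Nat.card D → ∀ g h : G, g * h * g⁻¹ * h⁻¹ ∈ Subgroup.zpowers z

/-- JOB ODDPAIR (uses S_NPAIR, S_OMX, S_CYCP, S_CYC, S_FALL, S_CLREG as hypotheses).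
A noncommutative finite p-group, p odd, with CenSmall has a Pair.
PROOF. Strong induction on Nat.card G.  z central of order p, Z = zpowers z = {t central, t^p = 1}.
(1) If more than p elements g have g^p = 1 and [g,h] in Z for all h: S_OMX with D = ⊤.  So at most p.
(2) X = {g : [g,h] in Z for all h} is a normal subgroup of G, with class at most 2 ≤ p - 1, so regular
(S_CLREG), so PowAll (S_FALL), so commutative by S_CYC and (1).
(3) There is g in X, not central: lift an element of order p of the center of G/center G (nontrivial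
p-group): g^p central, [g,h] central, [g,h]^p = [g^p,h] = 1, so [g,h] in Z.
(4) D = centralizer X is normal, not ⊤, and X ≤ D.
(5) D commutative.  If more than p elements d of D have d^p = 1: S_NPAIR for the subgroup of these.
Otherwise D is cyclic (commutative p-group with at most p solutions of d^p = 1:
isCyclic_of_card_pow_eq_one_le; the map d -> d^(p^k) has fibres that are cosets; see
Pool/Agent/Q194/RP/Cyc.lean), X = zpowers g0 is cyclic, D = centralizer {g0}, and the conjugates of
g0 are in g0 Z, so the index of D is at most p, so p.  By S_CYCP all commutators are in Z, X = ⊤,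
G is commutative, contradiction.
(6) D not commutative.  If more than p elements t of the center of D have t^p = 1: they form a normal
subgroup of G, S_NPAIR.  Otherwise by induction D has a Pair e', z'; z is in the center of D so
zpowers z' = Z; then e' and the p elements of Z are more than p elements as in S_OMX for D. -/
def S_ODDPAIR : Prop :=
  ∀ (p : ℕ) [Fact p.Prime], p ≠ 2 → ∀ (G : Type) [Group G] [Finite G], IsPGroup p G →
    CenSmall p G → (¬ ∀ a b : G, a * b = b * a) → ∃ e z : G, Pair p e z

/-- JOB STEPB (uses S_DESC, S_EIG, S_TRZ, S_CARDC as hypotheses). The descent step, with more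
information.  PROOF: literally the proof in Pool/Agent/Q277/RP/STEP.lean; the new
clause is (σ (mk c)) w = ρ c w, which is hσe and hσ₁e there. -/
def S_STEPB : Prop :=
  ∀ (p : ℕ) [Fact p.Prime] (G V : Type) [Group G] [Finite G] [AddCommGroup V] [Module ℂ V]
    [FiniteDimensional ℂ V] (ρ : Representation ℂ G V), Irr ρ → ∀ (e z : G), Pair p e z →
    ∀ ω : ℂ, (∀ v, ρ z v = ω • v) → ω ≠ 1 →
    ∀ x : G, LinearMap.trace ℂ V (ρ x) ≠ 0 →
    ∃ (hx : x ∈ Subgroup.centralizer ({e} : Set G)) (n : ℕ)
      (hu : e * z ^ n ∈ Subgroup.centralizer ({e} : Set G))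
      (hN : (Subgroup.zpowers (⟨e * z ^ n, hu⟩ : Subgroup.centralizer ({e} : Set G))).Normal)
      (W : Submodule ℂ V) (σ : Representation ℂ (Subgroup.centralizer ({e} : Set G) ⧸
        Subgroup.zpowers (⟨e * z ^ n, hu⟩ : Subgroup.centralizer ({e} : Set G))) W),
      Irr σ ∧ finrank ℂ V = p * finrank ℂ W ∧
      (∀ (c : Subgroup.centralizer ({e} : Set G)) (w : W),
        ((σ (QuotientGroup.mk c) w : W) : V) = ρ (c : G) (w : V)) ∧
      LinearMap.trace ℂ W (σ (QuotientGroup.mk ⟨x, hx⟩)) ≠ 0 ∧
      Nat.card G = p ^ 2 * Nat.card (Subgroup.centralizer ({e} : Set G) ⧸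
        Subgroup.zpowers (⟨e * z ^ n, hu⟩ : Subgroup.centralizer ({e} : Set G)))

/-- JOB DIV (uses S_ODDPAIR, S_STEPB, S_SCHUR, S_DESC as hypotheses). For p odd, d^2 divides |P|,
and p d^2 divides |P| if P is not trivial.
PROOF. Strong induction on |P|.  Not injective: N = ker ρ ≠ ⊥, |P| = |P/N| |N|, p divides |N|, and
d^2 divides |P/N| (S_DESC (2)).  Injective: CenSmall by S_SCHUR (2).  Commutative: d = 1 and p divides |P|
if P is not trivial.  Otherwise Pair e z (S_ODDPAIR), ω from S_SCHUR (1), S_STEPB for x = 1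
(trace = dim V ≠ 0): |P| = p^2 |C/⟨u⟩|, dim V = p dim W, and C/⟨u⟩ is not trivial since σ (mk z)
is multiplication by ω ≠ 1 (z in C).  Induction. -/
def S_DIV : Prop :=
  ∀ (p : ℕ) [Fact p.Prime], p ≠ 2 → ∀ (P V : Type) [Group P] [Finite P] [AddCommGroup V]
    [Module ℂ V] [FiniteDimensional ℂ V] (ρ : Representation ℂ P V), IsPGroup p P → Irr ρ →
    (finrank ℂ V) ^ 2 ∣ Nat.card P ∧ (Nontrivial P → p * (finrank ℂ V) ^ 2 ∣ Nat.card P)

/-- JOB SCAL (uses S_ODDPAIR, S_STEPB, S_SCHUR, S_DESC, S_ORD as hypotheses). If some power of x acts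
as a scalar different from 1.
PROOF. Strong induction on |P|.  Not injective: N = ker ρ, pass to P/N (same power, same scalar),
o(x) divides o(xN) |N| (S_ORD (1)).  Injective, commutative: d = 1, o(x) divides |P|.  Otherwise Pair
e z, S_STEPB.  If zpowers x ⊓ zpowers u = ⊥ (u = e z^n) then o(x̄) = o(x) (S_ORD (2)), x̄^k acts on W as the
same scalar, induction: o(x) (dim W)^2 divides |C/⟨u⟩|, multiply by p^2.  Otherwise u in zpowers x
(u has order p: u^p = 1, u not central).  x^k = c is central (ρ injective: it commutes with all ρ g) and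
≠ 1, so zpowers (x^k) contains an element t of order p, central; the cyclic p-group
zpowers x has only one subgroup of order p, so u in zpowers t is central, so e is central,
contradiction. -/
def S_SCAL : Prop :=
  ∀ (p : ℕ) [Fact p.Prime], p ≠ 2 → ∀ (P V : Type) [Group P] [Finite P] [AddCommGroup V]
    [Module ℂ V] [FiniteDimensional ℂ V] (ρ : Representation ℂ P V), IsPGroup p P → Irr ρ →
    ∀ x : P, LinearMap.trace ℂ V (ρ x) ≠ 0 →
    (∃ (k : ℕ) (c : ℂ), c ≠ 1 ∧ ∀ v, ρ (x ^ k) v = c • v) →
    orderOf x * (finrank ℂ V) ^ 2 ∣ Nat.card P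

/-- JOB QP (uses S_ODDPAIR, S_STEPB, S_SCHUR, S_DESC, S_TRZ, S_DIV as hypotheses). If |P| = p d^2 and
trace (ρ x) ≠ 0 then ρ x is a scalar.
PROOF. Strong induction on |P|.  Not injective: N = ker ρ, |N| ≥ p, |P/N| |N| = p d^2; if P/N is not
trivial then p d^2 divides |P/N| (S_DIV), impossible; so P/N is trivial and ρ x = 1.
Injective, commutative: d = 1, every endomorphism is a scalar.  Otherwise Pair e z, S_STEPB; |C/⟨u⟩| =
p (dim W)^2, so by induction σ (x̄) = c (scalar).  σ is injective: its kernel N has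
|N| |(C/⟨u⟩)/N| = p (dim W)^2 and the quotient is not trivial (z acts as ω), so by S_DIV N = ⊥.
For g in C: [x̄, ḡ] is in the kernel.  x̄ is central in C/⟨u⟩.  S_DIV-free argument for its order: let
the scalar c have order p^a (ρ has values of finite order).  Claim: a scalar in a group with |Q| = p d^2
has order dividing p: prove this together in the same induction (Q not injective:
as above it is trivial; injective commutative: d = 1, |Q| = p; Pair: a scalar element t of Q is central, so
in C, and acts on W as the same scalar, induction).  So c^p = 1, c = ω^k for some k (ω primitive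
p-th root of unity), so x̄ = z̄^k as σ is injective, so x = z^k u^j in P.  If x is not central, some g has
g x g⁻¹ = x z^m with z^m ≠ 1 (g e g⁻¹ = e z^i) and S_TRZ gives trace 0.  So x is central and ρ x
is a scalar (S_SCHUR (1)). -/
def S_QP : Prop :=
  ∀ (p : ℕ) [Fact p.Prime], p ≠ 2 → ∀ (P V : Type) [Group P] [Finite P] [AddCommGroup V]
    [Module ℂ V] [FiniteDimensional ℂ V] (ρ : Representation ℂ P V), IsPGroup p P → Irr ρ →
    Nat.card P = p * (finrank ℂ V) ^ 2 →
    ∀ x : P, LinearMap.trace ℂ V (ρ x) ≠ 0 → ∃ c : ℂ, ∀ v, ρ x v = c • v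

/-- JOB ORDTWO (uses S_DIV, S_QP, S_SCAL, S_DESC as hypotheses). x^(p^2) = 1.
PROOF. P trivial: clear.  Otherwise |P| = d^2 q with q a power of p divisible by p (S_DIV).  If
p^2 divides q: o(x) divides p^2.  Otherwise |P| = p d^2, ρ x = c by S_QP.  c ≠ 1: S_SCAL with
k = 1.  c = 1: if ρ is injective x = 1; otherwise N = ker ρ ≠ ⊥, |P/N| |N| = p d^2, P/N
trivial by S_DIV, d = 1, |P| = p and o(x) divides p. -/
def S_ORDTWO : Prop :=
  ∀ (p : ℕ) [Fact p.Prime], p ≠ 2 → ∀ (P V : Type) [Group P] [Finite P] [AddCommGroup V]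
    [Module ℂ V] [FiniteDimensional ℂ V] (ρ : Representation ℂ P V), IsPGroup p P → Irr ρ →
    ∀ x : P, LinearMap.trace ℂ V (ρ x) ≠ 0 → x ^ (p ^ 2) = 1 →
    orderOf x * (finrank ℂ V) ^ 2 ∣ Nat.card P

/-- JOB DEGA (uses S_ODDPAIR, S_STEPB, S_SCHUR, S_DESC, S_ORD as hypotheses). dim V = p.
PROOF. Strong induction on |P|.  Not injective: pass to P/N, S_ORD (1).  Injective: not commutative
(S_SCHUR (3)), Pair e z, S_STEPB: dim W = 1, |P| = p^2 |C/⟨u⟩|, |C| = p |C/⟨u⟩|.  Need o(x)
divides |C/⟨u⟩|.  o(x) divides |C|, both powers of p.  If not, o(x) = |C|, C = zpowers x is cyclic;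
but e and z are in C, in a cyclic group the solutions of t^p = 1 are at most p
elements, so e in zpowers z is central, contradiction. -/
def S_DEGA : Prop :=
  ∀ (p : ℕ) [Fact p.Prime], p ≠ 2 → ∀ (P V : Type) [Group P] [Finite P] [AddCommGroup V]
    [Module ℂ V] [FiniteDimensional ℂ V] (ρ : Representation ℂ P V), IsPGroup p P → Irr ρ →
    finrank ℂ V = p → ∀ x : P, LinearMap.trace ℂ V (ρ x) ≠ 0 →
    orderOf x * (finrank ℂ V) ^ 2 ∣ Nat.card P

/-- JOB BP (uses S_ODDPAIR, S_STEPB, S_SCHUR, S_TRZ as hypotheses). Injective, dim V = p,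
o(y) p^2 = |G|: a power of y is central and ≠ 1.
PROOF. G is not commutative (S_SCHUR (3)); Pair e z; by S_STEPB y in C = centralizer {e}, and |G| =
p |C| (|C| = p |C/⟨u⟩|), so |C| = p o(y): zpowers y has index p in C, so it is normal in C (p-group).
C is normal in G (index p).  o(y) = p^m.  m = 0: |G| = p^2, commutative, contradiction.
m = 1: |G| = p^3; G/zpowers z has order p^2, so is commutative; if y is not central some g has
g y g⁻¹ = y t with t in zpowers z, t ≠ 1, and S_TRZ gives trace 0; so y is central, k = 1.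
m ≥ 2: t = y^(p^(m-1)).  For g in G: y' = g y g⁻¹ in C, y'^p in zpowers y (index p), y'^p = y^a,
y'^(p^(m-1)) = y^(a p^(m-2)) has p-th power 1, so it lies in zpowers t.  So zpowers t is a normal
subgroup of order p of the p-group G, hence central. -/
def S_BP : Prop :=
  ∀ (p : ℕ) [Fact p.Prime], p ≠ 2 → ∀ (G V : Type) [Group G] [Finite G] [AddCommGroup V]
    [Module ℂ V] [FiniteDimensional ℂ V] (ρ : Representation ℂ G V), IsPGroup p G → Irr ρ →
    (∀ g, ρ g = 1 → g = 1) → finrank ℂ V = p → ∀ y : G, LinearMap.trace ℂ V (ρ y) ≠ 0 →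
    orderOf y * p ^ 2 = Nat.card G → ∃ k : ℕ, y ^ k ∈ Subgroup.center G ∧ y ^ k ≠ 1

/-- JOB DEGB (uses S_ODDPAIR, S_STEPB, S_SCHUR, S_DESC, S_ORD, S_DEGA, S_BP as hypotheses).
dim V = p^2.
PROOF. Strong induction on |P|.  Not injective: pass to P/N, S_ORD (1).  Injective: not commutative,
Pair e z, S_STEPB: G1 = C/⟨u⟩, dim W = p, |P| = p^2 |G1|; S_DEGA: o(x̄) p^2 divides |G1|.
If zpowers x ⊓ zpowers u = ⊥ then o(x̄) = o(x), done.  Otherwise u in zpowers x and o(x) divides
p o(x̄); if p o(x̄) p^2 divides |G1| done.  Otherwise o(x̄) p^2 = |G1| (powers of p).  N = ker σ in G1,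
G2 = G1/N, τ injective (S_DESC (2)), y = image of x: S_DEGA: o(y) p^2 divides |G2| and
o(x̄) divides o(y) |N|, so o(y) p^2 = |G2| and o(x̄) = o(y) |N|; then x̄^(o(y)) is in N and has order |N|, so
N ≤ zpowers x̄.  S_BP: some y^k is central ≠ 1 in G2, and a power of it has order p.  z2 = image of z
in G2 is central, acts as ω ≠ 1, so z2 ≠ 1, z2^p = 1; by S_SCHUR (2) for G2 all central
elements t with t^p = 1 are in zpowers of that power of y, so z2 = y^j.  So z x^(-j) (in C) maps into N ≤
zpowers x̄, so z in zpowers x * zpowers u = zpowers x.  Then z and u are elements of order p of the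
cyclic group zpowers x, so u in zpowers z, u is central, e is central, contradiction. -/
def S_DEGB : Prop :=
  ∀ (p : ℕ) [Fact p.Prime], p ≠ 2 → ∀ (P V : Type) [Group P] [Finite P] [AddCommGroup V]
    [Module ℂ V] [FiniteDimensional ℂ V] (ρ : Representation ℂ P V), IsPGroup p P → Irr ρ →
    finrank ℂ V = p ^ 2 → ∀ x : P, LinearMap.trace ℂ V (ρ x) ≠ 0 →
    orderOf x * (finrank ℂ V) ^ 2 ∣ Nat.card P

end Pool.Agent.Q266.RP
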