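import Pool.Agent.Q266.RP.Stm3

/-!
Project RP (helper266), MP_6bdd40_al, fourth part: p odd, all subgroups generated by two conjugate
elements of P/ker rho regular (in particular nilpotency class at most p).
-/

namespace Pool.Agent.Q266.RP

open Module

/-- every subgroup generated by two conjugate elements is regular -/
def CRegular (p : ℕ) (P : Type) [Group P] : Prop :=
  ∀ a b : P, Regular p (Subgroup.closure ({a, b * a * b⁻¹} : Set P))

/-- `x ^ (p ^ k)` commutes with `g` iff `x` commutes with `g ^ (p ^ k)` -/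
def CommAll (p : ℕ) (G : Type) [Group G] : Prop :=
  ∀ (k : ℕ) (x g : G), x ^ (p ^ k) * g = g * x ^ (p ^ k) ↔ x * g ^ (p ^ k) = g ^ (p ^ k) * x

/-- JOB CSUB (uses S_SUB as hypothesis). CRegular passes to subgroups, quotients, and holds for
regular groups.
PROOF. Subgroup H, a b : H: the subgroup closure {a, b a b⁻¹} of H is isomorphic (H.subtype, injective) to
the subgroup of G generated by the same elements; regularity is invariant under
isomorphism (show: an injective homomorphism into, or surjective from, a regular group).  Quotient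
G/N: lift a, b; closure {ā, b̄ ā b̄⁻¹} is the image of closure {a, b a b⁻¹}, so it is
a homomorphic image of a regular group, so regular (S_SUB (2) and an isomorphism, or
directly as in the proof of S_SUB in Pool/Agent/Q277/RP/SUB.lean).  Regular G: S_SUB (1). -/
def S_CSUB : Prop :=
  (∀ (p : ℕ) (G : Type) [Group G] (H : Subgroup G), CRegular p G → CRegular p H) ∧
  (∀ (p : ℕ) (G : Type) [Group G] (N : Subgroup G) [N.Normal], CRegular p G →
      CRegular p (G ⧸ N)) ∧
  (∀ (p : ℕ) (G : Type) [Group G], Regular p G → CRegular p G)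

/-- JOB CCOMM (uses S_FALL as hypothesis). A finite p-group with CRegular has CommAll.
PROOF. As S_COMM (Pool/Agent/Q76/RP/Comm.lean), with q = p^k: x^q g = g x^q iff x^q = (g x g⁻¹)^q iff
(PowAll in the subgroup closure {x, g x g⁻¹}, by S_FALL) (x⁻¹ g x g⁻¹)^q = 1; x g^q = g^q x
iff g^q = (x g x⁻¹)^q iff (PowAll in closure {g, x g x⁻¹}) (g⁻¹ x g x⁻¹)^q = 1; and these two elements are
conjugate up to inversion. -/
def S_CCOMM : Prop :=
  ∀ (p : ℕ) [Fact p.Prime] (G : Type) [Group G] [Finite G], IsPGroup p G → CRegular p G →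
    CommAll p G

/-- JOB CLP (uses S_NCL, S_CLREG as hypotheses). Class at most p implies CRegular.
PROOF. H = closure {a, b a b⁻¹}.  b a b⁻¹ = c a with c = b a b⁻¹ a⁻¹ in L_1 = lowerCentralSeries ⊤ 1 =
commutator G, so the commutator of a and b a b⁻¹ and all its conjugates are in L_2; by S_NCL in H the
commutator subgroup of H maps into L_2, i.e. (lowerCentralSeries ⊤ 1 of H) ≤ L_2, and by induction the
i-th term of H maps into L_(i+1) for i ≥ 1.  So the term p - 1 ≥ 1 of H is in L_p = ⊥; S_CLREG. -/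
def S_CLP : Prop :=
  ∀ (p : ℕ) [Fact p.Prime] (G : Type) [Group G],
    (⊤ : Subgroup G).lowerCentralSeries p = ⊥ → CRegular p G

/-- JOB XUC. S_XU with CommAll in place of PowAll.
PROOF. Literally the proof in Pool/Agent/Q129/RP/Xu.lean, where PowAll is only used through
S_COMM. -/
def S_XUC : Prop :=
  ∀ (p : ℕ) [Fact p.Prime] (G : Type) [Group G] [Finite G], IsPGroup p G → CommAll p G →
    ∀ (e z : G), Pair p e z → ∀ [(Subgroup.zpowers z).Normal],
    CommAll p (G ⧸ Subgroup.zpowers z) → ∀ (n : ℕ) (x : G),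
    Subgroup.zpowers x ⊓ Subgroup.zpowers (e * z ^ n) ≠ ⊥ →
    ∃ h t : G, t ∈ Subgroup.center G ∧ t ≠ 1 ∧ h * x * h⁻¹ = x * t

/-- JOB MAINC (uses S_CSUB, S_CCOMM, S_ODDPAIR, S_ORD, S_XUC, S_SCHUR, S_TRZ, S_DESC, S_STEP as
hypotheses).
PROOF. The proof of Pool/Agent/Q231/RP/MAIN.lean: the Pair in the injective noncommutative case comes
from S_ODDPAIR (p odd; CenSmall is S_SCHUR (2)); in the injective commutative case d = 1; CRegular
passes to P/N and C/⟨u⟩ and P/zpowers z by S_CSUB; S_XUC with CommAll from S_CCOMM. -/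
def S_MAINC : Prop :=
  ∀ (p : ℕ) [Fact p.Prime], p ≠ 2 → ∀ (P V : Type) [Group P] [Finite P] [AddCommGroup V]
    [Module ℂ V] [FiniteDimensional ℂ V] (ρ : Representation ℂ P V), IsPGroup p P →
    CRegular p P → Irr ρ → ∀ x : P, LinearMap.trace ℂ V (ρ x) ≠ 0 →
    orderOf x * (finrank ℂ V) ^ 2 ∣ Nat.card P

end Pool.Agent.Q266.RP
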